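import Pool.Agent.H42.Triples

namespace Pool.Agent.Results.MP_dc3585_lc.Q1

open Cardinal

universe u

theorem result (S : Type u)
    (hS : #S = (2 : Cardinal.{u}) ^ ((2 : Cardinal.{u}) ^ (ℵ₀ : Cardinal.{u}))) :
    ∃ c : Finset S → Fin 2, ∀ A : Set S, #A = ℵ₁ → ∀ (n : ℕ) (i : Fin 2),
      ∃ Y : Finset S, (Y : Set S) ⊆ A ∧ Y.card = n ∧ ∀ t ⊆ Y, t.card = 3 → c t = i := by
  obtain ⟨c, hc⟩ := Pool.Agent.H42.Triples.final (S := S) (by rw [hS, two_power_aleph0])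
  refine ⟨fun t => if c t then 1 else 0, fun A hA n i => ?_⟩
  have hA' : ¬ A.Countable := by
    rw [← le_aleph0_iff_set_countable, hA]
    exact aleph0_lt_aleph_one.not_ge
  obtain ⟨Y, hY, hcard, h⟩ := hc A hA' n (decide (i = 1))
  refine ⟨Y, hY, hcard, fun t ht h3 => ?_⟩
  simp only [h t ht h3]
  fin_cases i <;> simp

end Pool.Agent.Results.MP_dc3585_lc.Q1
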